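import Pool.Agent.LPK.Stmts

/-!
# Squad LPK, row PLM: Poisson summation for polynomials
-/

set_option autoImplicit false

noncomputable section

open MeasureTheory Filter Topology
open scoped RealInnerProductSpace

namespace Pool.Agent.LPK.H75

open Pool.Agent.LPK

theorem e3_cons (t : ℤ × ℕ × ℕ × ℕ) (p : P3) (A B H : ℝ) : e3 (t :: p) A B H =
    (t.1 : ℝ) * A ^ t.2.1 * B ^ t.2.2.1 * H ^ t.2.2.2 + e3 p A B H := by
  unfold e3
  rw [List.map_cons, List.sum_cons]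

theorem e3_nil (A B H : ℝ) : e3 [] A B H = 0 := rfl

theorem e3_neg (p : P3) (hp : Ev p) (A B H : ℝ) : e3 p A B (-H) = e3 p A B H := by
  induction p with
  | nil => rfl
  | cons t p ih =>
    rw [e3_cons, e3_cons, ih fun s hs => hp s (List.mem_cons_of_mem _ hs)]
    by_cases h : t.1 = 0
    · rw [h]
      simp
    · have h1 : Even t.2.2.2 := Nat.even_iff.2 (hp t List.mem_cons_self h)
      rw [h1.neg_pow]

theorem e3_cont (p : P3) {X : Type*} [TopologicalSpace X] {a b h : X → ℝ} (ha : Continuous a)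
    (hb : Continuous b) (hh : Continuous h) : Continuous fun x => e3 p (a x) (b x) (h x) := by
  induction p with
  | nil => exact continuous_const
  | cons t p ih =>
    simp only [e3_cons]
    exact (((continuous_const.mul (ha.pow _)).mul (hb.pow _)).mul (hh.pow _)).add ih

theorem pexp (m : ℕ) (s : ℝ) (hs : 0 ≤ s) : (1 + s) ^ m * Real.exp (-s / 2) ≤
    (4 ^ m * m.factorial * Real.exp (1 / 4)) * Real.exp (-(1 / 4) * s) := by
  have h1 : ((1 + s) / 4) ^ m / m.factorial ≤ Real.exp ((1 + s) / 4) :=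
    Real.pow_div_factorial_le_exp _ (by positivity) m
  have hf : (0 : ℝ) < m.factorial := by exact_mod_cast m.factorial_pos
  have h2 : (1 + s) ^ m ≤ 4 ^ m * m.factorial * Real.exp ((1 + s) / 4) := by
    rw [div_le_iff₀ hf, div_pow, div_le_iff₀ (by positivity)] at h1
    calc (1 + s) ^ m ≤ Real.exp ((1 + s) / 4) * m.factorial * 4 ^ m := h1
      _ = _ := by ring
  calc (1 + s) ^ m * Real.exp (-s / 2)
      ≤ (4 ^ m * m.factorial * Real.exp ((1 + s) / 4)) * Real.exp (-s / 2) :=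
        mul_le_mul_of_nonneg_right h2 (Real.exp_pos _).le
    _ = 4 ^ m * m.factorial * (Real.exp ((1 + s) / 4) * Real.exp (-s / 2)) := by ring
    _ = 4 ^ m * m.factorial * (Real.exp (1 / 4) * Real.exp (-(1 / 4) * s)) := by
        rw [← Real.exp_add, ← Real.exp_add]
        congr 2
        ring
    _ = _ := by ring

theorem plm (h1 : BddStmt) (h2 : FtpStmt) (h3 : DuaStmt) (h4 : PslStmt) (h5 : SumStmt) :
    PlmStmt := by
  intro n κ b b' hd p hp y
  obtain ⟨f, hf⟩ : ∃ f : V n → ℝ, f = fun x => e3 p (‖x‖ ^ 2) (‖y‖ ^ 2) ⟪x, y⟫ * G x :=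
    ⟨_, rfl⟩
  have hd' : Du κ⁻¹ b' b := (h3 n κ b b' hd).1
  have hcont : Continuous f := by
    rw [hf]
    refine (e3_cont p (continuous_norm.pow 2) continuous_const
      (continuous_id.inner continuous_const)).mul ?_
    unfold G
    exact Real.continuous_exp.comp ((continuous_norm.pow 2).neg.div_const 2)
  have heven : ∀ x, f (-x) = f x := by
    intro x
    rw [hf]
    simp only [G, norm_neg, inner_neg_left]
    rw [e3_neg p hp]
  obtain ⟨C, m, hC, hB⟩ := h1 p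
  have hbd : ∀ x, |f x| ≤ (C * (1 + ‖y‖ ^ 2) ^ m *
      (4 ^ m * m.factorial * Real.exp (1 / 4))) * Real.exp (-(1 / 4) * ‖x‖ ^ 2) := by
    intro x
    rw [hf]
    simp only []
    have hG : 0 < G x := Real.exp_pos _
    rw [abs_mul, abs_of_pos hG]
    calc |e3 p (‖x‖ ^ 2) (‖y‖ ^ 2) ⟪x, y⟫| * G x
        ≤ (C * (1 + ‖x‖ ^ 2) ^ m * (1 + ‖y‖ ^ 2) ^ m) * G x :=
          mul_le_mul_of_nonneg_right (hB n x y) hG.le
      _ = C * (1 + ‖y‖ ^ 2) ^ m * ((1 + ‖x‖ ^ 2) ^ m * Real.exp (-‖x‖ ^ 2 / 2)) := by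
          unfold G
          ring
      _ ≤ C * (1 + ‖y‖ ^ 2) ^ m * ((4 ^ m * m.factorial * Real.exp (1 / 4)) *
          Real.exp (-(1 / 4) * ‖x‖ ^ 2)) :=
          mul_le_mul_of_nonneg_left (pexp m (‖x‖ ^ 2) (by positivity)) (by positivity)
      _ = _ := by ring
  have hint : ∀ c : Fin n → ℤ, ∫ x : V n, f x * Real.cos ⟪x, pt b' c⟫ =
      (2 * Real.pi) ^ ((n : ℝ) / 2) *
        (e3 (T3 n p) (‖pt b' c‖ ^ 2) (‖y‖ ^ 2) ⟪pt b' c, y⟫ * G (pt b' c)) := by
    intro c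
    rw [hf]
    exact h2 n p hp y (pt b' c)
  have hsum : Summable fun c : Fin n → ℤ => ∫ x : V n, f x * Real.cos ⟪x, pt b' c⟫ := by
    simp only [hint]
    exact ((h5 n κ⁻¹ κ⁻¹ b' b' b b hd' hd').1 (T3 n p) y).mul_left _
  have key := h4 n κ b b' hd f _ (1 / 4) (by norm_num) hcont heven hbd hsum
  simp only [hint] at key
  rw [tsum_mul_left] at key
  have hpi : (0 : ℝ) < (2 * Real.pi) ^ ((n : ℝ) / 2) :=
    Real.rpow_pos_of_pos (by positivity) _
  rw [hf] at key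
  have key2 : (2 * Real.pi) ^ ((n : ℝ) / 2) * (κ * ∑' a : Fin n → ℤ,
      e3 p (‖pt b a‖ ^ 2) (‖y‖ ^ 2) ⟪pt b a, y⟫ * G (pt b a)) =
      (2 * Real.pi) ^ ((n : ℝ) / 2) * ∑' c : Fin n → ℤ,
        e3 (T3 n p) (‖pt b' c‖ ^ 2) (‖y‖ ^ 2) ⟪pt b' c, y⟫ * G (pt b' c) := by
    rw [← key]
    ring
  exact mul_left_cancel₀ hpi.ne' key2

end Pool.Agent.LPK.H75
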